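import Pool.Agent.U19.FC.Defs

/-!
# The digraph of a 3SAT instance, with abstract names
-/

namespace Pool.Agent.NPC.U19.FC

/-- the names of the vertices -/
inductive Nd : Type
  | h (j : ℕ)
  | a (x : ℕ)
  | b (x : ℕ)
  | c (x : ℕ)
  | u (s : Bool) (x i : ℕ)
  | v (s : Bool) (x i : ℕ)
  | q (s : Bool) (x i : ℕ)

/-- the vertices; `m` is the number of the clauses, `n` is the number of the variables -/
inductive Vd (m n : ℕ) : Nd → Prop
  | h {j : ℕ} : j ≤ m → Vd m n (.h j)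
  | a {x : ℕ} : x < n → Vd m n (.a x)
  | b {x : ℕ} : x < n → Vd m n (.b x)
  | c {x : ℕ} : x < n → Vd m n (.c x)
  | u {s : Bool} {x i : ℕ} : x < n → i < m → Vd m n (.u s x i)
  | v {s : Bool} {x i : ℕ} : x < n → i < m → Vd m n (.v s x i)
  | q {s : Bool} {x i : ℕ} : x < n → i < m → Vd m n (.q s x i)

/-- the arcs; `T s x j` means that the literal `(s, x)` is in the clause `j` -/
inductive Arc (m n : ℕ) (T : Bool → ℕ → ℕ → Prop) : Nd → Nd → Prop
  | hh : Arc m n T (.h m) (.h 0)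
  | hq {s : Bool} {x j : ℕ} : T s x j → Arc m n T (.h j) (.q s x j)
  | qh {s : Bool} {x j : ℕ} : T s x j → Arc m n T (.q s x j) (.h (j + 1))
  | bc {x : ℕ} : x < n → Arc m n T (.b x) (.c x)
  | ca {x : ℕ} : x < n → Arc m n T (.c x) (.a x)
  | ua {s : Bool} {x : ℕ} : x < n → Arc m n T (.u s x 0) (.a x)
  | bv {s : Bool} {x : ℕ} : x < n → Arc m n T (.b x) (.v s x (m - 1))
  | uv {s : Bool} {x i : ℕ} : x < n → i < m → Arc m n T (.u s x i) (.v s x i)
  | uq {s : Bool} {x i : ℕ} : x < n → i < m → Arc m n T (.u s x i) (.q s x i)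
  | qv {s : Bool} {x i : ℕ} : x < n → i < m → Arc m n T (.q s x i) (.v s x i)
  | uw {s : Bool} {x i : ℕ} : x < n → i + 1 < m → Arc m n T (.u s x (i + 1)) (.v s x i)

/-- the property, for a digraph given by a set of vertices and a relation -/
def HasF {α : Type} (V : α → Prop) (R : α → α → Prop) : Prop :=
  ∃ (F : α → α → Prop) (c : List α),
    ((∀ p q, F p q → F q p) ∧ (∀ p q, F p q → R p q ∨ R q p) ∧
      ∀ p, V p → ∃ q r, q ≠ r ∧ ∀ w, F p w ↔ w = q ∨ w = r) ∧
    (c.Nodup ∧ 3 ≤ c.length ∧ ∀ e ∈ c.zip (c.rotate 1), R e.1 e.2 ∧ F e.1 e.2)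

theorem exists_succ {α : Type} {l : List α} {p : α} (hp : p ∈ l) :
    ∃ w ∈ l, (p, w) ∈ l.zip (l.rotate 1) := by
  obtain ⟨i, hi, rfl⟩ := List.getElem_of_mem hp
  have hi' : i < (l.rotate 1).length := by simpa using hi
  refine ⟨(l.rotate 1)[i], (List.mem_rotate.1 (List.getElem_mem hi')), ?_⟩
  rw [List.mem_iff_getElem]
  refine ⟨i, by simpa using hi, by simp⟩

theorem exists_pred {α : Type} {l : List α} {p : α} (hp : p ∈ l) :
    ∃ w ∈ l, (w, p) ∈ l.zip (l.rotate 1) := by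
  have hp' : p ∈ l.rotate 1 := List.mem_rotate.2 hp
  obtain ⟨i, hi, h⟩ := List.getElem_of_mem hp'
  have hi' : i < l.length := by simpa using hi
  refine ⟨l[i], List.getElem_mem hi', ?_⟩
  rw [List.mem_iff_getElem]
  refine ⟨i, by simpa using hi', ?_⟩
  rw [List.getElem_zip, h]

variable {m n : ℕ} {T : Bool → ℕ → ℕ → Prop}

theorem arc_asymm {p q : Nd} (hm : 0 < m) (h1 : Arc m n T p q) : ¬ Arc m n T q p := by
  intro h2
  cases h1 <;> cases h2
  exact lt_irrefl _ hm

theorem arc_ne {p q : Nd} (hm : 0 < m) (h1 : Arc m n T p q) : p ≠ q := by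
  cases h1 <;> simp <;> omega

theorem sat_of_hasF (hm : 0 < m) (hT : ∀ s x j, T s x j → x < n ∧ j < m)
    (h : HasF (Vd m n) (Arc m n T)) :
    ∃ τ : ℕ → Bool, ∀ j < m, ∃ x s, T s x j ∧ τ x = s := by
  obtain ⟨F, c, ⟨hsym, hsub, hdeg⟩, hnd, hlen, hc⟩ := h
  have hV : ∀ p w, Arc m n T p w → Vd m n p ∧ Vd m n w := by
    intro p w h
    cases h with
    | hh => exact ⟨.h le_rfl, .h (by omega)⟩
    | hq h => exact ⟨.h (hT _ _ _ h).2.le, .q (hT _ _ _ h).1 (hT _ _ _ h).2⟩
    | qh h => exact ⟨.q (hT _ _ _ h).1 (hT _ _ _ h).2, .h (hT _ _ _ h).2⟩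
    | bc h => exact ⟨.b h, .c h⟩
    | ca h => exact ⟨.c h, .a h⟩
    | ua h => exact ⟨.u h hm, .a h⟩
    | bv h => exact ⟨.b h, .v h (by omega)⟩
    | uv h h' => exact ⟨.u h h', .v h h'⟩
    | uq h h' => exact ⟨.u h h', .q h h'⟩
    | qv h h' => exact ⟨.q h h', .v h h'⟩
    | uw h h' => exact ⟨.u h h', .v h (by omega)⟩
  have hsucc : ∀ p ∈ c, ∃ w ∈ c, Arc m n T p w ∧ F p w := by
    intro p hp
    obtain ⟨w, hw, h⟩ := exists_succ hp
    exact ⟨w, hw, hc _ h⟩
  have hpred : ∀ p ∈ c, ∃ w ∈ c, Arc m n T w p ∧ F w p := by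
    intro p hp
    obtain ⟨w, hw, h⟩ := exists_pred hp
    exact ⟨w, hw, hc _ h⟩
  -- three different neighbours are impossible
  have h3 : ∀ p, Vd m n p → ∀ x y z, x ≠ y → x ≠ z → y ≠ z → F p x → F p y → F p z → False := by
    intro p hp x y z h1 h2 h3 hx hy hz
    obtain ⟨q, r, hqr, h⟩ := hdeg p hp
    rw [h] at hx hy hz
    rcases hx with rfl | rfl <;> rcases hy with rfl | rfl <;> rcases hz with rfl | rfl <;>
      simp_all
  -- two different neighbours exist
  have h2 : ∀ p, Vd m n p → ∀ x, ∃ y, y ≠ x ∧ F p y := by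
    intro p hp x
    obtain ⟨q, r, hqr, h⟩ := hdeg p hp
    by_cases hx : q = x
    · exact ⟨r, fun h => hqr (hx.trans h.symm), (h r).2 (Or.inr rfl)⟩
    · exact ⟨q, hx, (h q).2 (Or.inl rfl)⟩
  have hclosed : ∀ p ∈ c, ∀ w, F p w → w ∈ c := by
    intro p hp w hw
    obtain ⟨y, hy, h4, h5⟩ := hsucc p hp
    obtain ⟨z, hz, h6, h7⟩ := hpred p hp
    have hyz : y ≠ z := by
      rintro rfl
      exact arc_asymm hm h4 h6
    by_contra hwc
    exact h3 p (hV _ _ h4).1 y z w hyz (fun h => hwc (h ▸ hy)) (fun h => hwc (h ▸ hz)) h5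
      (hsym _ _ h7) hw
  have hu : ∀ s x i, Nd.u s x i ∉ c := by
    intro s x i h
    obtain ⟨w, _, h1, _⟩ := hpred _ h
    cases h1
  have hv : ∀ s x i, Nd.v s x i ∉ c := by
    intro s x i h
    obtain ⟨w, _, h1, _⟩ := hsucc _ h
    cases h1
  have ha : ∀ x, Nd.a x ∉ c := by
    intro x h
    obtain ⟨w, _, h1, _⟩ := hsucc _ h
    cases h1
  have hb : ∀ x, Nd.b x ∉ c := by
    intro x h
    obtain ⟨w, _, h1, _⟩ := hpred _ h
    cases h1
  have hcc : ∀ x, Nd.c x ∉ c := by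
    intro x h
    obtain ⟨w, hw, h1, _⟩ := hpred _ h
    cases h1
    exact hb _ hw
  have hq : ∀ s x i, Nd.q s x i ∈ c → Nd.h (i + 1) ∈ c := by
    intro s x i h
    obtain ⟨w, hw, h1, _⟩ := hsucc _ h
    cases h1 with
    | qh _ => exact hw
    | qv _ _ => exact absurd hw (hv _ _ _)
  have hh : ∀ j < m, Nd.h j ∈ c → ∃ s x, T s x j ∧ Nd.q s x j ∈ c := by
    intro j hj h
    obtain ⟨w, hw, h1, _⟩ := hsucc _ h
    cases h1 with
    | hh => omega
    | hq h2 => exact ⟨_, _, h2, hw⟩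
  have hstep : ∀ j < m, Nd.h j ∈ c → Nd.h (j + 1) ∈ c := by
    intro j hj h
    obtain ⟨s, x, _, h1⟩ := hh j hj h
    exact hq _ _ _ h1
  have hup : ∀ k j, Nd.h j ∈ c → j + k ≤ m → Nd.h (j + k) ∈ c := by
    intro k
    induction k with
    | zero => intro j h _; exact h
    | succ k ih =>
      intro j h hk
      have h4 := ih j h (by omega)
      exact hstep (j + k) (by omega) h4
  have hm' : Nd.h m ∈ c → Nd.h 0 ∈ c := by
    intro h
    obtain ⟨w, hw, h1, _⟩ := hsucc _ h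
    cases h1 with
    | hh => exact hw
    | hq h2 => exact absurd (hT _ _ _ h2).2 (lt_irrefl _)
  have hex : ∃ j ≤ m, Nd.h j ∈ c := by
    have hne : c ≠ [] := by
      rintro rfl
      simp at hlen
    obtain ⟨p, hp⟩ := List.exists_mem_of_ne_nil _ hne
    have hpV : Vd m n p := by
      obtain ⟨w, _, h1, _⟩ := hsucc _ hp
      exact (hV _ _ h1).1
    cases hpV with
    | h hj => exact ⟨_, hj, hp⟩
    | a _ => exact absurd hp (ha _)
    | b _ => exact absurd hp (hb _)
    | c _ => exact absurd hp (hcc _)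
    | u _ _ => exact absurd hp (hu _ _ _)
    | v _ _ => exact absurd hp (hv _ _ _)
    | q _ h => exact ⟨_, h, hq _ _ _ hp⟩
  have hall : ∀ j ≤ m, Nd.h j ∈ c := by
    obtain ⟨j, hj, h⟩ := hex
    have h1 := hup (m - j) j h (by omega)
    rw [Nat.add_sub_cancel' hj] at h1
    intro k hk
    have h2 := hup k 0 (hm' h1) (by omega)
    simpa using h2
  -- the neighbours
  have nu : ∀ s x i, ∀ w, F (.u s x i) w → w = .v s x i ∨ w = .q s x i ∨
      (i = 0 ∧ w = .a x) ∨ ∃ k, i = k + 1 ∧ w = .v s x k := by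
    intro s x i w h
    rcases hsub _ _ h with h | h <;> cases h <;> simp
  have nv : ∀ s x i, ∀ w, F (.v s x i) w → w = .u s x i ∨ w = .q s x i ∨
      w = .b x ∨ w = .u s x (i + 1) := by
    intro s x i w h
    rcases hsub _ _ h with h | h <;> cases h <;> simp
  have nq : ∀ s x i, ∀ w, F (.q s x i) w → w = .u s x i ∨ w = .v s x i ∨
      w = .h i ∨ w = .h (i + 1) := by
    intro s x i w h
    rcases hsub _ _ h with h | h <;> cases h <;> simp
  have nc : ∀ x, ∀ w, F (.c x) w → w = .a x ∨ w = .b x := by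
    intro x w h
    rcases hsub _ _ h with h | h <;> cases h <;> simp
  -- the predecessor in the chain
  let P : Bool → ℕ → ℕ → Prop := fun s x i =>
    (i = 0 ∧ F (.u s x i) (.a x)) ∨ ∃ k, i = k + 1 ∧ F (.u s x i) (.v s x k)
  have hP : ∀ s x i, x < n → i < m → ∀ w, (w = Nd.v s x i ∨ w = Nd.q s x i) →
      (∀ w', (w' = Nd.v s x i ∨ w' = Nd.q s x i) → F (.u s x i) w' → w' = w) → P s x i := by
    intro s x i hx hi w _ hw
    obtain ⟨y, hy, hF⟩ := h2 (.u s x i) (.u hx hi) w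
    rcases nu _ _ _ _ hF with h | h | ⟨h, h'⟩ | ⟨k, h, h'⟩
    · exact absurd (hw y (Or.inl h) hF) hy
    · exact absurd (hw y (Or.inr h) hF) hy
    · left
      rw [h'] at hF
      exact ⟨h, hF⟩
    · right
      rw [h'] at hF
      exact ⟨k, h, hF⟩
  have hPc : ∀ s x i, x < n → i < m → Nd.q s x i ∈ c → P s x i := by
    intro s x i hx hi hq
    refine hP s x i hx hi (.v s x i) (Or.inl rfl) ?_
    rintro w' (rfl | rfl) hF
    · rfl
    · exact absurd (hclosed _ hq _ (hsym _ _ hF)) (hu _ _ _)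
  have hPs : ∀ s x i, x < n → i + 1 < m → P s x (i + 1) → P s x i := by
    intro s x i hx hi hp
    by_cases hqc : Nd.q s x i ∈ c
    · exact hPc s x i hx (by omega) hqc
    have hF : F (.v s x i) (.u s x (i + 1)) := by
      rcases hp with ⟨h, _⟩ | ⟨k, h, h'⟩
      · omega
      · have : k = i := by omega
        subst this
        exact hsym _ _ h'
    have hnh : ∀ j ≤ m, ¬ F (.q s x i) (.h j) := by
      intro j hj hF
      exact hqc (hclosed _ (hall j hj) _ (hsym _ _ hF))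
    have hqv : F (.q s x i) (.v s x i) := by
      obtain ⟨y, hy, hF'⟩ := h2 (.q s x i) (.q hx (by omega)) (.u s x i)
      rcases nq _ _ _ _ hF' with h | h | h | h
      · exact absurd h hy
      · rw [h] at hF'
        exact hF'
      · rw [h] at hF'
        exact absurd hF' (hnh _ (by omega))
      · rw [h] at hF'
        exact absurd hF' (hnh _ (by omega))
    have hvu : ¬ F (.v s x i) (.u s x i) := by
      intro h
      exact h3 (.v s x i) (.v hx (by omega)) (.u s x i) (.u s x (i + 1)) (.q s x i)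
        (by simp) (by simp) (by simp) h hF (hsym _ _ hqv)
    refine hP s x i hx (by omega) (.q s x i) (Or.inr rfl) ?_
    rintro w' (rfl | rfl) hF
    · exact absurd (hsym _ _ hF) hvu
    · rfl
  have hP0 : ∀ s x i, x < n → i < m → P s x i → P s x 0 := by
    intro s x i
    induction i with
    | zero => intro _ _ h; exact h
    | succ i ih => intro hx hi h; exact ih hx (by omega) (hPs s x i hx hi h)
  have hcon : ∀ s x j, x < n → j < m → Nd.q s x j ∈ c → F (.u s x 0) (.a x) := by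
    intro s x j hx hj hq
    rcases hP0 s x j hx hj (hPc s x j hx hj hq) with ⟨_, h⟩ | ⟨k, h, _⟩
    · exact h
    · omega
  have hne : ∀ x < n, F (.u true x 0) (.a x) → ¬ F (.u false x 0) (.a x) := by
    intro x hx h1 h4
    have h5 : F (.c x) (.a x) := by
      obtain ⟨y, hy, hF⟩ := h2 (.c x) (.c hx) (.b x)
      rcases nc _ _ hF with h | h
      · rw [h] at hF
        exact hF
      · exact absurd h hy
    exact h3 (.a x) (.a hx) (.u true x 0) (.u false x 0) (.c x) (by simp) (by simp) (by simp)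
      (hsym _ _ h1) (hsym _ _ h4) (hsym _ _ h5)
  classical
  refine ⟨fun x => decide (F (.u true x 0) (.a x)), ?_⟩
  intro j hj
  obtain ⟨s, x, h1, h4⟩ := hh j hj (hall j hj.le)
  have hx := (hT _ _ _ h1).1
  refine ⟨x, s, h1, ?_⟩
  have h5 := hcon s x j hx hj h4
  cases s
  · exact decide_eq_false fun h => hne x hx h h5
  · exact decide_eq_true h5

end Pool.Agent.NPC.U19.FC
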