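import Pool.Agent.U19.FC.Abs

/-!
# A satisfying assignment gives a 2-factor
-/

namespace Pool.Agent.NPC.U19.FC

variable {m n : ℕ} {T : Bool → ℕ → ℕ → Prop} {τ : ℕ → Bool} {ch : ℕ → ℕ}

/-- the triangle is traversed by the directed cycle -/
def Con (τ : ℕ → Bool) (ch : ℕ → ℕ) (s : Bool) (x i : ℕ) : Prop := s = τ x ∧ x = ch i

/-- the edges of the 2-factor, with one of the two directions -/
inductive G (m n : ℕ) (τ : ℕ → Bool) (ch : ℕ → ℕ) : Nd → Nd → Prop
  | hh : G m n τ ch (.h m) (.h 0)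
  | hq {s : Bool} {x i : ℕ} : i < m → Con τ ch s x i → G m n τ ch (.h i) (.q s x i)
  | qh {s : Bool} {x i : ℕ} : i < m → Con τ ch s x i → G m n τ ch (.q s x i) (.h (i + 1))
  | bc {x : ℕ} : x < n → G m n τ ch (.b x) (.c x)
  | ca {x : ℕ} : x < n → G m n τ ch (.c x) (.a x)
  | ua {s : Bool} {x : ℕ} : x < n → s = τ x → G m n τ ch (.u s x 0) (.a x)
  | bv {s : Bool} {x : ℕ} : x < n → s = τ x → G m n τ ch (.b x) (.v s x (m - 1))
  | uv {s : Bool} {x i : ℕ} : x < n → i < m → (s = τ x → x = ch i) →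
      G m n τ ch (.u s x i) (.v s x i)
  | uq {s : Bool} {x i : ℕ} : x < n → i < m → ¬ Con τ ch s x i → G m n τ ch (.u s x i) (.q s x i)
  | qv {s : Bool} {x i : ℕ} : x < n → i < m → ¬ Con τ ch s x i → G m n τ ch (.q s x i) (.v s x i)
  | uw {s : Bool} {x i : ℕ} : x < n → i + 1 < m → s = τ x → G m n τ ch (.u s x (i + 1)) (.v s x i)

/-- the 2-factor -/
def F (m n : ℕ) (τ : ℕ → Bool) (ch : ℕ → ℕ) (p q : Nd) : Prop := G m n τ ch p q ∨ G m n τ ch q p

theorem arc_of_g (hch : ∀ i < m, T (τ (ch i)) (ch i) i) {p q : Nd} (h : G m n τ ch p q) :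
    Arc m n T p q := by
  cases h with
  | hh => exact .hh
  | hq h1 h2 =>
    obtain ⟨rfl, rfl⟩ := h2
    exact .hq (hch _ h1)
  | qh h1 h2 =>
    obtain ⟨rfl, rfl⟩ := h2
    exact .qh (hch _ h1)
  | bc h => exact .bc h
  | ca h => exact .ca h
  | ua h _ => exact .ua h
  | bv h _ => exact .bv h
  | uv h h' _ => exact .uv h h'
  | uq h h' _ => exact .uq h h'
  | qv h h' _ => exact .qv h h'
  | uw h h' _ => exact .uw h h'

theorem deg_h (hm : 0 < m) {j : ℕ} (hj : j ≤ m) :
    ∃ q r, q ≠ r ∧ ∀ w, F m n τ ch (.h j) w ↔ w = q ∨ w = r := by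
  rcases Nat.eq_zero_or_pos j with rfl | h0
  · refine ⟨.h m, .q (τ (ch 0)) (ch 0) 0, by simp, ?_⟩
    intro w
    constructor
    · rintro (h | h)
      · cases h with
        | hh => omega
        | hq h1 h2 =>
          obtain ⟨rfl, rfl⟩ := h2
          right; rfl
      · cases h with
        | hh => left; rfl
    · rintro (rfl | rfl)
      · exact Or.inr .hh
      · exact Or.inl (.hq hm ⟨rfl, rfl⟩)
  · obtain ⟨k, rfl⟩ : ∃ k, j = k + 1 := ⟨j - 1, by omega⟩
    by_cases hjm : k + 1 = m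
    · subst hjm
      refine ⟨.h 0, .q (τ (ch k)) (ch k) k, by simp, ?_⟩
      intro w
      constructor
      · rintro (h | h)
        · cases h with
          | hh => left; rfl
          | hq h1 h2 => omega
        · cases h with
          | qh h1 h2 =>
            obtain ⟨rfl, rfl⟩ := h2
            right; rfl
      · rintro (rfl | rfl)
        · exact Or.inl .hh
        · exact Or.inr (.qh (by omega) ⟨rfl, rfl⟩)
    · refine ⟨.q (τ (ch (k + 1))) (ch (k + 1)) (k + 1), .q (τ (ch k)) (ch k) k, by simp, ?_⟩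
      intro w
      constructor
      · rintro (h | h)
        · cases h with
          | hh => omega
          | hq h1 h2 =>
            obtain ⟨rfl, rfl⟩ := h2
            left; rfl
        · cases h with
          | qh h1 h2 =>
            obtain ⟨rfl, rfl⟩ := h2
            right; rfl
      · rintro (rfl | rfl)
        · exact Or.inl (.hq (by omega) ⟨rfl, rfl⟩)
        · exact Or.inr (.qh (by omega) ⟨rfl, rfl⟩)

theorem deg_a {x : ℕ} (hx : x < n) :
    ∃ q r, q ≠ r ∧ ∀ w, F m n τ ch (.a x) w ↔ w = q ∨ w = r := by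
  refine ⟨.c x, .u (τ x) x 0, by simp, ?_⟩
  intro w
  constructor
  · rintro (h | h)
    · cases h
    · cases h with
      | ca _ => left; rfl
      | ua _ h => right; rw [h]
  · rintro (rfl | rfl)
    · exact Or.inr (.ca hx)
    · exact Or.inr (.ua hx rfl)

theorem deg_b {x : ℕ} (hx : x < n) :
    ∃ q r, q ≠ r ∧ ∀ w, F m n τ ch (.b x) w ↔ w = q ∨ w = r := by
  refine ⟨.c x, .v (τ x) x (m - 1), by simp, ?_⟩
  intro w
  constructor
  · rintro (h | h)
    · cases h with
      | bc _ => left; rfl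
      | bv _ h => right; rw [h]
    · cases h
  · rintro (rfl | rfl)
    · exact Or.inl (.bc hx)
    · exact Or.inl (.bv hx rfl)

theorem deg_c {x : ℕ} (hx : x < n) :
    ∃ q r, q ≠ r ∧ ∀ w, F m n τ ch (.c x) w ↔ w = q ∨ w = r := by
  refine ⟨.a x, .b x, by simp, ?_⟩
  intro w
  constructor
  · rintro (h | h)
    · cases h
      left; rfl
    · cases h
      right; rfl
  · rintro (rfl | rfl)
    · exact Or.inl (.ca hx)
    · exact Or.inr (.bc hx)

theorem deg_u {s : Bool} {x i : ℕ} (hx : x < n) (hi : i < m) :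
    ∃ q r, q ≠ r ∧ ∀ w, F m n τ ch (.u s x i) w ↔ w = q ∨ w = r := by
  have h0 : ∀ w, F m n τ ch (.u s x i) w ↔
      (w = .v s x i ∧ (s = τ x → x = ch i)) ∨ (w = .q s x i ∧ ¬ Con τ ch s x i) ∨
      (w = .a x ∧ i = 0 ∧ s = τ x) ∨ ∃ k, i = k + 1 ∧ w = .v s x k ∧ s = τ x := by
    intro w
    constructor
    · rintro (h | h) <;> cases h <;> simp_all
    · rintro (⟨rfl, h⟩ | ⟨rfl, h⟩ | ⟨rfl, rfl, h⟩ | ⟨k, rfl, rfl, h⟩)
      · exact Or.inl (.uv hx hi h)
      · exact Or.inl (.uq hx hi h)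
      · exact Or.inl (.ua hx h)
      · exact Or.inl (.uw hx (by omega) h)
  by_cases hs : s = τ x
  · obtain ⟨pr, hpr, hpr'⟩ : ∃ pr : Nd, (∀ w, ((w = .a x ∧ i = 0 ∧ s = τ x) ∨
        ∃ k, i = k + 1 ∧ w = .v s x k ∧ s = τ x) ↔ w = pr) ∧ pr ≠ .v s x i ∧ pr ≠ .q s x i := by
      cases i with
      | zero => exact ⟨.a x, by intro w; simp [hs], by simp⟩
      | succ k => exact ⟨.v s x k, by intro w; simp [hs], by simp⟩
    by_cases hc : x = ch i
    · refine ⟨.v s x i, pr, hpr'.1.symm, fun w => ?_⟩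
      rw [h0, hpr]
      simp only [Con, hc, hs]
      simp
    · refine ⟨.q s x i, pr, hpr'.2.symm, fun w => ?_⟩
      rw [h0, hpr]
      simp only [Con, hc, hs]
      simp
  · refine ⟨.v s x i, .q s x i, by simp, fun w => ?_⟩
    rw [h0]
    simp [Con, hs]

theorem deg_v {s : Bool} {x i : ℕ} (hx : x < n) (hi : i < m) :
    ∃ q r, q ≠ r ∧ ∀ w, F m n τ ch (.v s x i) w ↔ w = q ∨ w = r := by
  have h0 : ∀ w, F m n τ ch (.v s x i) w ↔
      (w = .u s x i ∧ (s = τ x → x = ch i)) ∨ (w = .q s x i ∧ ¬ Con τ ch s x i) ∨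
      (w = .b x ∧ i = m - 1 ∧ s = τ x) ∨ (i + 1 < m ∧ w = .u s x (i + 1) ∧ s = τ x) := by
    intro w
    constructor
    · rintro (h | h) <;> cases h <;> simp_all
    · rintro (⟨rfl, h⟩ | ⟨rfl, h⟩ | ⟨rfl, rfl, h⟩ | ⟨h', rfl, h⟩)
      · exact Or.inr (.uv hx hi h)
      · exact Or.inr (.qv hx hi h)
      · exact Or.inr (.bv hx h)
      · exact Or.inr (.uw hx h' h)
  by_cases hs : s = τ x
  · obtain ⟨pr, hpr, hpr'⟩ : ∃ pr : Nd, (∀ w, ((w = .b x ∧ i = m - 1 ∧ s = τ x) ∨
        (i + 1 < m ∧ w = .u s x (i + 1) ∧ s = τ x)) ↔ w = pr) ∧ pr ≠ .u s x i ∧ pr ≠ .q s x i := by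
      by_cases him : i + 1 < m
      · refine ⟨.u s x (i + 1), ?_, by simp⟩
        intro w
        have : ¬ (i = m - 1) := by omega
        simp [hs, him, this]
      · refine ⟨.b x, ?_, by simp⟩
        intro w
        have : i = m - 1 := by omega
        simp [hs, him, ← this]
    by_cases hc : x = ch i
    · refine ⟨.u s x i, pr, hpr'.1.symm, fun w => ?_⟩
      rw [h0, hpr]
      simp only [Con, hc, hs]
      simp
    · refine ⟨.q s x i, pr, hpr'.2.symm, fun w => ?_⟩
      rw [h0, hpr]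
      simp only [Con, hc, hs]
      simp
  · refine ⟨.u s x i, .q s x i, by simp, fun w => ?_⟩
    rw [h0]
    simp [Con, hs]

theorem deg_q {s : Bool} {x i : ℕ} (hx : x < n) (hi : i < m) :
    ∃ q r, q ≠ r ∧ ∀ w, F m n τ ch (.q s x i) w ↔ w = q ∨ w = r := by
  by_cases hc : Con τ ch s x i
  · refine ⟨.h i, .h (i + 1), by simp, fun w => ?_⟩
    constructor
    · rintro (h | h) <;> cases h <;> simp_all
    · rintro (rfl | rfl)
      · exact Or.inr (.hq hi hc)
      · exact Or.inl (.qh hi hc)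
  · refine ⟨.u s x i, .v s x i, by simp, fun w => ?_⟩
    constructor
    · rintro (h | h) <;> cases h <;> simp_all
    · rintro (rfl | rfl)
      · exact Or.inr (.uq hx hi hc)
      · exact Or.inl (.qv hx hi hc)

theorem hasF_of_sat (hm : 0 < m) (hT : ∀ s x j, T s x j → x < n ∧ j < m)
    {τ : ℕ → Bool} (hτ : ∀ j < m, ∃ x s, T s x j ∧ τ x = s) :
    HasF (Vd m n) (Arc m n T) := by
  have hch0 : ∀ j, ∃ x, j < m → T (τ x) x j := by
    intro j
    by_cases hj : j < m
    · obtain ⟨x, s, h1, h2⟩ := hτ j hj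
      exact ⟨x, fun _ => by rw [h2]; exact h1⟩
    · exact ⟨0, fun h => absurd h hj⟩
  choose ch hch using hch0
  let f : ℕ → Nd := fun i => if i % 2 = 0 then .h (i / 2) else .q (τ (ch (i / 2))) (ch (i / 2)) (i / 2)
  have hfe : ∀ j, f (2 * j) = .h j := by
    intro j
    simp [f]
  have hfo : ∀ j, f (2 * j + 1) = .q (τ (ch j)) (ch j) j := by
    intro j
    have h1 : (2 * j + 1) % 2 = 1 := by omega
    have h2 : (2 * j + 1) / 2 = j := by omega
    simp [f, h1, h2]
  have hinj : Function.Injective f := by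
    intro i j h
    rcases Nat.even_or_odd' i with ⟨a, rfl | rfl⟩ <;> rcases Nat.even_or_odd' j with ⟨b, rfl | rfl⟩
    · rw [hfe, hfe] at h
      simp only [Nd.h.injEq] at h
      rw [h]
    · rw [hfe, hfo] at h
      simp at h
    · rw [hfo, hfe] at h
      simp at h
    · rw [hfo, hfo] at h
      simp only [Nd.q.injEq] at h
      rw [h.2.2]
  have hstep : ∀ i < 2 * m, G m n τ ch (f i) (f (i + 1)) := by
    intro i hi
    rcases Nat.even_or_odd' i with ⟨a, rfl | rfl⟩
    · rw [hfe, hfo]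
      exact .hq (by omega) ⟨rfl, rfl⟩
    · have : 2 * a + 1 + 1 = 2 * (a + 1) := by ring
      rw [hfo, this, hfe]
      exact .qh (by omega) ⟨rfl, rfl⟩
  have hlast : G m n τ ch (f (2 * m)) (f 0) := by
    have h0 : f 0 = .h 0 := hfe 0
    rw [hfe, h0]
    exact .hh
  have harc : ∀ {p q : Nd}, G m n τ ch p q → Arc m n T p q := arc_of_g hch
  refine ⟨F m n τ ch, (List.range (2 * m + 1)).map f, ⟨fun p q h => h.symm, ?_, ?_⟩, ?_, ?_, ?_⟩
  · rintro p q (h | h)
    · exact Or.inl (harc h)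
    · exact Or.inr (harc h)
  · intro p hp
    cases hp with
    | h h => exact deg_h hm h
    | a h => exact deg_a h
    | b h => exact deg_b h
    | c h => exact deg_c h
    | u h h' => exact deg_u h h'
    | v h h' => exact deg_v h h'
    | q h h' => exact deg_q h h'
  · exact List.nodup_range.map hinj
  · simp
    omega
  · intro e he
    obtain ⟨i, hi, rfl⟩ := List.getElem_of_mem he
    have hi' : i < 2 * m + 1 := by
      simpa using hi
    rw [List.getElem_zip, List.getElem_rotate]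
    simp only [List.getElem_map, List.getElem_range, List.length_map, List.length_range]
    have hg : G m n τ ch (f i) (f ((i + 1) % (2 * m + 1))) := by
      by_cases h : i = 2 * m
      · subst h
        rw [Nat.mod_self]
        exact hlast
      · rw [Nat.mod_eq_of_lt (by omega)]
        exact hstep i (by omega)
    exact ⟨harc hg, Or.inl hg⟩

end Pool.Agent.NPC.U19.FC
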