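import Pool.Agent.NPC.Classes

/-!
# 2-factors of the underlying graph of a digraph with a directed cycle
-/

namespace Pool.Agent.NPC.U19.FC

/-- adjacency in the underlying graph of the digraph with the list of arcs `A` -/
def UG {α : Type} (A : List (α × α)) (p q : α) : Prop := (p, q) ∈ A ∨ (q, p) ∈ A

/-- `F` (a symmetric relation, the adjacency of a spanning subgraph) is a 2-factor of the underlying
graph: every edge of `F` is an edge of the underlying graph, and every vertex has degree `2` in `F` -/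
def IsTwoFactor {α : Type} (V : List α) (A : List (α × α)) (F : α → α → Prop) : Prop :=
  (∀ p q, F p q → F q p) ∧ (∀ p q, F p q → UG A p q) ∧
    ∀ p ∈ V, ∃ q r, q ≠ r ∧ ∀ w, F p w ↔ w = q ∨ w = r

/-- `c = [v₁, …, v_m]` (`m ≥ 3`, no repetitions) is a cycle of the 2-factor `F`, and it is a directed
cycle: `(v₁, v₂), …, (v_m, v₁)` are arcs -/
def IsDirCycle {α : Type} (A : List (α × α)) (F : α → α → Prop) (c : List α) : Prop :=
  c.Nodup ∧ 3 ≤ c.length ∧ ∀ e ∈ c.zip (c.rotate 1), e ∈ A ∧ F e.1 e.2

/-- An instance: the list of the vertices and the list of the arcs of a digraph. -/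
abbrev Inst : Type := List ℕ × List (ℕ × ℕ)

/-- The instance describes a digraph without loops and parallel arcs. -/
def IsInst (I : Inst) : Prop :=
  I.1.Nodup ∧ I.2.Nodup ∧ ∀ e ∈ I.2, e.1 ∈ I.1 ∧ e.2 ∈ I.1 ∧ e.1 ≠ e.2

/-- The underlying graph has a 2-factor one of whose cycles is a directed cycle. -/
def HasFactor (I : Inst) : Prop :=
  ∃ (F : ℕ → ℕ → Prop) (c : List ℕ), IsTwoFactor I.1 I.2 F ∧ IsDirCycle I.2 F c

/-- The decision problem. -/
def DirFactor (I : Inst) : Prop := IsInst I ∧ HasFactor I

end Pool.Agent.NPC.U19.FC
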