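import Pool.Agent.U19.FC.Red

/-!
# The reduction is computable in polynomial time, and the problem is in NP
-/

namespace Pool.Agent.NPC.U19.FC

open Pool.Agent.H622R2 (ddup mem_ddup ddup_nodup ddup_poly)
open Pool.Agent.NPC.U19.TD (Cl adjB adjB_iff ddup_eq_iff map_fst_zip sz_le_of_sublist
  sz_le_of_subperm)

@[fun_prop]
theorem poly_nm {α : Type} [TEnc α] {t : α → ℕ} {s : α → Bool} {x i : α → ℕ} (ht : Poly t)
    (hs : Poly s) (hx : Poly x) (hi : Poly i) :
    Poly (fun a => nm (t a) (s a) (x a) (i a)) := by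
  unfold nm
  fun_prop

@[fun_prop]
theorem poly_range_pred {α β : Type} [TEnc α] [TEnc β] {l : α → List β} (hl : Poly l) :
    Poly (fun a => List.range ((l a).length - 1)) := by
  have h : (fun a => List.range ((l a).length - 1)) = fun a => List.range (l a).tail.length := by
    funext a
    rw [List.length_tail]
  rw [h]
  exact (UPoly.length (Poly.tail hl)).range

theorem poly_vs : Poly vs := by
  unfold vs
  fun_prop

theorem poly_es : Poly es := by
  unfold es
  fun_prop

theorem poly_red : Poly red := by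
  unfold red
  have h1 := poly_vs
  have h2 := poly_es
  fun_prop

theorem hardPr_factor : HardPr IsInst HasFactor :=
  hardPr_SAT3b.trans poly_red (fun _ h => isInst_red h.2.1 h.2.2)
    (fun _ h => red_correct h.2.1 h.2.2)

theorem hard_dirFactor : NPHardP DirFactor := by
  have h : HardPr IsInst DirFactor :=
    hardPr_factor.trans Poly.id (fun _ h => h)
      (fun I h => ⟨fun h' => ⟨h, h'⟩, fun h' => h'.2⟩)
  exact h.toHardI.toNPHardP

/-! ### Membership in NP -/

/-- the instance is well-formed, as a Boolean -/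
def isInstB (I : Inst) : Bool :=
  decide (ddup I.1 = I.1) && (decide (ddup I.2 = I.2) &&
    I.2.all (fun e => decide (e.1 ∈ I.1) && (decide (e.2 ∈ I.1) && !decide (e.1 = e.2))))

theorem isInstB_iff (I : Inst) : isInstB I = true ↔ IsInst I := by
  unfold isInstB IsInst
  simp only [Bool.and_eq_true, decide_eq_true_eq, ddup_eq_iff, List.all_eq_true,
    Bool.not_eq_true', decide_eq_false_iff_not, ne_eq]

/-- rotation of the list -/
def rot (c : List ℕ) : List ℕ := c.tail ++ (c.zip [0]).map (fun p => p.1)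

theorem rot_eq (c : List ℕ) : rot c = c.rotate 1 := by
  cases c with
  | nil => rfl
  | cons a c => simp [rot]

/-- the verifier; the certificate is the list of the pairs of adjacent vertices in the 2-factor, and
the directed cycle -/
def verB (p : Inst × (List (ℕ × ℕ) × List ℕ)) : Bool :=
  isInstB p.1 && ((p.2.1.all (fun e => decide ((e.2, e.1) ∈ p.2.1)) &&
    (p.2.1.all (fun e => adjB p.1.2 e.1 e.2) &&
    p.1.1.all (fun v => decide ((p.1.1.filter (fun w => decide ((v, w) ∈ p.2.1))).length = 2)))) &&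
    (decide (ddup p.2.2 = p.2.2) && (decide (3 ≤ p.2.2.length) &&
    (p.2.2.zip (rot p.2.2)).all (fun e => decide (e ∈ p.1.2) && decide (e ∈ p.2.1)))))

theorem poly_verB : Poly verB := by
  unfold verB isInstB rot
  fun_prop

theorem filter_length_two {V : List ℕ} (hV : V.Nodup) {P : ℕ → Prop} [DecidablePred P]
    (hP : ∀ w, P w → w ∈ V) :
    (V.filter (fun w => decide (P w))).length = 2 ↔
      ∃ q r, q ≠ r ∧ ∀ w, P w ↔ w = q ∨ w = r := by
  constructor
  · intro h
    obtain ⟨q, r, h1⟩ := List.length_eq_two.1 h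
    have h2 : (V.filter (fun w => decide (P w))).Nodup := hV.filter _
    rw [h1] at h2
    refine ⟨q, r, by simpa using h2, fun w => ?_⟩
    have h3 : w ∈ V.filter (fun w => decide (P w)) ↔ P w := by
      rw [List.mem_filter, decide_eq_true_eq]
      exact ⟨fun h => h.2, fun h => ⟨hP w h, h⟩⟩
    rw [← h3, h1]
    simp
  · rintro ⟨q, r, hqr, h⟩
    have h1 : (V.filter (fun w => decide (P w))).Perm [q, r] := by
      rw [List.perm_ext_iff_of_nodup (hV.filter _) (by simpa using hqr)]
      intro w
      rw [List.mem_filter, decide_eq_true_eq]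
      constructor
      · intro h'
        have := (h w).1 h'.2
        simpa using this
      · intro h'
        have h2 : P w := (h w).2 (by simpa using h')
        exact ⟨hP w h2, h2⟩
    rw [h1.length_eq]
    rfl

/-- all pairs of vertices -/
def prs (I : Inst) : List (ℕ × ℕ) := I.1.flatMap (fun v => I.1.map (fun w => (v, w)))

theorem poly_prs : Poly prs := by
  unfold prs
  fun_prop

theorem inNPP_dirFactor : InNPP DirFactor := by
  obtain ⟨p, hp⟩ := poly_prs.sz_le
  refine inNPP_of (β := List (ℕ × ℕ) × List ℕ) poly_verB (Polynomial.X + p + 1) ?_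
  intro I
  simp only [Polynomial.eval_add, Polynomial.eval_X, Polynomial.eval_one]
  constructor
  · rintro ⟨hI, F, c, ⟨h1, h2, h3⟩, h4, h5, h6⟩
    classical
    let L : List (ℕ × ℕ) := (prs I).filter (fun e => decide (F e.1 e.2))
    have hUG : ∀ p q, F p q → p ∈ I.1 ∧ q ∈ I.1 := by
      intro p q h
      rcases h2 _ _ h with h | h
      · exact ⟨(hI.2.2 _ h).1, (hI.2.2 _ h).2.1⟩
      · exact ⟨(hI.2.2 _ h).2.1, (hI.2.2 _ h).1⟩
    have hL : ∀ p q, (p, q) ∈ L ↔ F p q := by
      intro p q
      simp only [L, prs, List.mem_filter, List.mem_flatMap, List.mem_map, decide_eq_true_eq]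
      constructor
      · exact fun h => h.2
      · intro h
        exact ⟨⟨p, (hUG _ _ h).1, q, (hUG _ _ h).2, rfl⟩, h⟩
    refine ⟨(L, c), ?_, ?_⟩
    · have a1 : sz L ≤ sz (prs I) := sz_le_of_sublist List.filter_sublist
      have hcV : ∀ u ∈ c, u ∈ I.1 := by
        intro u hu
        obtain ⟨w, _, h⟩ := exists_succ hu
        exact (hI.2.2 _ (h6 _ h).1).1
      have a2 := sz_le_of_subperm (h4.subperm hcV)
      have a3 := hp I
      have a4 : sz I = sz I.1 + sz I.2 + 1 := sz_pair _ _
      rw [sz_pair]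
      omega
    · unfold verB
      simp only [Bool.and_eq_true, isInstB_iff, decide_eq_true_eq, ddup_eq_iff, List.all_eq_true,
        adjB_iff, rot_eq]
      refine ⟨hI, ⟨?_, ?_, ?_⟩, h4, h5, ?_⟩
      · rintro ⟨p, q⟩ h
        exact (hL _ _).2 (h1 _ _ ((hL _ _).1 h))
      · rintro ⟨p, q⟩ h
        exact h2 _ _ ((hL _ _).1 h)
      · intro v hv
        rw [filter_length_two hI.1 (fun w h => (hUG _ _ ((hL _ _).1 h)).2)]
        simp only [hL]
        exact h3 v hv
      · intro e he
        exact ⟨(h6 e he).1, (hL _ _).2 (h6 e he).2⟩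
  · rintro ⟨⟨L, c⟩, -, h⟩
    unfold verB at h
    simp only [Bool.and_eq_true, isInstB_iff, decide_eq_true_eq, ddup_eq_iff, List.all_eq_true,
        adjB_iff, rot_eq] at h
    obtain ⟨hI, ⟨h1, h2, h3⟩, h4, h5, h6⟩ := h
    refine ⟨hI, fun p q => (p, q) ∈ L, c, ⟨fun p q h => h1 _ h, fun p q h => h2 _ h, ?_⟩, h4, h5,
      h6⟩
    intro p hp
    refine (filter_length_two hI.1 ?_).1 (h3 p hp)
    intro w hw
    rcases h2 _ hw with h | h
    · exact (hI.2.2 _ h).2.1
    · exact (hI.2.2 _ h).1

theorem decidable_iff :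
    (∃ A : List Bool → List Bool, PolyTime A ∧
      ∀ I : Inst, IsInst I → (A (bits I) = [true] ↔ HasFactor I)) ↔
    ∀ L : Set (List Bool), InNP L → InP L := by
  constructor
  · rintro ⟨A, hA, hA'⟩ L hL
    obtain ⟨f, hf, hpr, hfL⟩ := hardPr_factor L hL
    refine ⟨fun w => A (bits (f w)), Pool.Agent.H642R2.TMSim.polyTime_comp hA (PC.toPolyTime hf),
      fun w => ?_⟩
    rw [hfL w]
    exact (hA' (f w) (hpr w)).symm
  · intro h
    obtain ⟨A, hA, hA'⟩ := h _ inNPP_dirFactor
    refine ⟨A, hA, fun I hI => ?_⟩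
    rw [← hA', bits_mem_lang]
    exact ⟨fun h => h.2, fun h => ⟨hI, h⟩⟩

end Pool.Agent.NPC.U19.FC
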