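import Pool.Agent.U19.FC.Comp
import Pool.Agent.U19.TD.Final

/-!
# The reduction from 3SAT
-/

namespace Pool.Agent.NPC.U19.FC

open Pool.Agent.H622R2 (ddup mem_ddup ddup_nodup ddup_poly)
open Pool.Agent.NPC.U19.TD (Cl InCl sg sg_inj inCl_lt sat_iff')

/-- the code of a name -/
def nm (t : ℕ) (s : Bool) (x i : ℕ) : ℕ := Nat.pair t (Nat.pair (sg s) (Nat.pair x i))

theorem nm_inj {t t' : ℕ} {s s' : Bool} {x x' i i' : ℕ} :
    nm t s x i = nm t' s' x' i' ↔ t = t' ∧ s = s' ∧ x = x' ∧ i = i' := by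
  unfold nm
  simp only [Nat.pair_eq_pair]
  constructor
  · rintro ⟨h1, h2, h3, h4⟩
    exact ⟨h1, sg_inj h2, h3, h4⟩
  · rintro ⟨rfl, rfl, rfl, rfl⟩
    exact ⟨rfl, rfl, rfl, rfl⟩

/-- the code of a vertex -/
def cod : Nd → ℕ
  | .h j => nm 0 false 0 j
  | .a x => nm 1 false x 0
  | .b x => nm 2 false x 0
  | .c x => nm 3 false x 0
  | .u s x i => nm 4 s x i
  | .v s x i => nm 5 s x i
  | .q s x i => nm 6 s x i

theorem cod_inj : Function.Injective cod := by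
  intro p q h
  cases p <;> cases q <;> simp_all [cod, nm_inj]

/-- the vertices -/
def vs (φ : List Cl) : List ℕ :=
  nm 0 false 0 φ.length :: ((List.range φ.length).map (fun j => nm 0 false 0 j) ++
    ((List.range (3 * φ.length)).flatMap (fun x =>
      [nm 1 false x 0, nm 2 false x 0, nm 3 false x 0]) ++
    (List.range (3 * φ.length)).flatMap (fun x => (List.range φ.length).flatMap fun i =>
      [true, false].flatMap fun s => [nm 4 s x i, nm 5 s x i, nm 6 s x i])))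

/-- the arcs -/
def es (φ : List Cl) : List (ℕ × ℕ) :=
  (nm 0 false 0 φ.length, nm 0 false 0 0) ::
    (φ.zipIdx.flatMap (fun p => [p.1.1, p.1.2.1, p.1.2.2].flatMap fun l =>
      [(nm 0 false 0 p.2, nm 6 l.1 l.2 p.2), (nm 6 l.1 l.2 p.2, nm 0 false 0 (p.2 + 1))]) ++
    ((List.range (3 * φ.length)).flatMap (fun x =>
      (nm 2 false x 0, nm 3 false x 0) :: (nm 3 false x 0, nm 1 false x 0) ::
        [true, false].flatMap fun s =>
          [(nm 4 s x 0, nm 1 false x 0), (nm 2 false x 0, nm 5 s x (φ.length - 1))]) ++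
    ((List.range (3 * φ.length)).flatMap (fun x => (List.range φ.length).flatMap fun i =>
      [true, false].flatMap fun s =>
        [(nm 4 s x i, nm 5 s x i), (nm 4 s x i, nm 6 s x i), (nm 6 s x i, nm 5 s x i)]) ++
    (List.range (3 * φ.length)).flatMap (fun x => (List.range (φ.length - 1)).flatMap fun i =>
      [true, false].flatMap fun s => [(nm 4 s x (i + 1), nm 5 s x i)]))))

/-- the literal is in the clause with number `j` -/
def Lt (φ : List Cl) (s : Bool) (x j : ℕ) : Prop := ∃ d : Cl, φ[j]? = some d ∧ InCl (s, x) d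

theorem lt_bound {φ : List Cl} (hb : Bounded3 φ) (s : Bool) (x j : ℕ) (h : Lt φ s x j) :
    x < 3 * φ.length ∧ j < φ.length := by
  obtain ⟨d, h1, h2⟩ := h
  exact ⟨inCl_lt hb h1 h2, (List.getElem?_eq_some_iff.1 h1).1⟩

theorem mem_vs {φ : List Cl} {z : ℕ} :
    z ∈ vs φ ↔ ∃ p, Vd φ.length (3 * φ.length) p ∧ z = cod p := by
  simp only [vs, List.mem_append, List.mem_flatMap, List.mem_range, List.mem_map, List.mem_cons,
    List.not_mem_nil, or_false]
  constructor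
  · rintro (rfl | ⟨j, hj, rfl⟩ | ⟨x, hx, h⟩ | ⟨x, hx, i, hi, s, -, h⟩)
    · exact ⟨_, .h le_rfl, rfl⟩
    · exact ⟨_, .h hj.le, rfl⟩
    · rcases h with rfl | rfl | rfl
      · exact ⟨_, .a hx, rfl⟩
      · exact ⟨_, .b hx, rfl⟩
      · exact ⟨_, .c hx, rfl⟩
    · rcases h with rfl | rfl | rfl
      · exact ⟨_, .u hx hi, rfl⟩
      · exact ⟨_, .v hx hi, rfl⟩
      · exact ⟨_, .q hx hi, rfl⟩
  · rintro ⟨p, hp, rfl⟩
    cases hp with
    | @h j h =>
      rcases h.lt_or_eq with h | rfl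
      · exact Or.inr (Or.inl ⟨j, h, rfl⟩)
      · exact Or.inl rfl
    | @a x h => exact Or.inr (Or.inr (Or.inl ⟨x, h, Or.inl rfl⟩))
    | @b x h => exact Or.inr (Or.inr (Or.inl ⟨x, h, Or.inr (Or.inl rfl)⟩))
    | @c x h => exact Or.inr (Or.inr (Or.inl ⟨x, h, Or.inr (Or.inr rfl)⟩))
    | @u s x i h h' =>
      exact Or.inr (Or.inr (Or.inr ⟨x, h, i, h', s, by cases s <;> simp, Or.inl rfl⟩))
    | @v s x i h h' =>
      exact Or.inr (Or.inr (Or.inr ⟨x, h, i, h', s, by cases s <;> simp, Or.inr (Or.inl rfl)⟩))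
    | @q s x i h h' =>
      exact Or.inr (Or.inr (Or.inr ⟨x, h, i, h', s, by cases s <;> simp, Or.inr (Or.inr rfl)⟩))

theorem mem_es {φ : List Cl} {z : ℕ × ℕ} :
    z ∈ es φ ↔ ∃ p q, Arc φ.length (3 * φ.length) (Lt φ) p q ∧ z = (cod p, cod q) := by
  simp only [es, List.mem_append, List.mem_flatMap, List.mem_range, List.mem_cons,
    List.not_mem_nil, or_false, List.mem_zipIdx_iff_getElem?]
  constructor
  · rintro (rfl | ⟨⟨d, j⟩, hd, l, hl, h⟩ | ⟨x, hx, h⟩ | ⟨x, hx, i, hi, s, -, h⟩ |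
      ⟨x, hx, i, hi, s, -, rfl⟩)
    · exact ⟨_, _, .hh, rfl⟩
    · have hL : Lt φ l.1 l.2 j := ⟨d, hd, hl⟩
      rcases h with rfl | rfl
      · exact ⟨_, _, .hq hL, rfl⟩
      · exact ⟨_, _, .qh hL, rfl⟩
    · rcases h with rfl | rfl | ⟨s, -, rfl | rfl⟩
      · exact ⟨_, _, .bc hx, rfl⟩
      · exact ⟨_, _, .ca hx, rfl⟩
      · exact ⟨_, _, .ua hx, rfl⟩
      · exact ⟨_, _, .bv hx, rfl⟩
    · rcases h with rfl | rfl | rfl
      · exact ⟨_, _, .uv hx hi, rfl⟩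
      · exact ⟨_, _, .uq hx hi, rfl⟩
      · exact ⟨_, _, .qv hx hi, rfl⟩
    · exact ⟨_, _, .uw hx (by omega), rfl⟩
  · rintro ⟨p, q, h, rfl⟩
    cases h with
    | hh => exact Or.inl rfl
    | @hq s x j h =>
      obtain ⟨d, h1, h2⟩ := h
      exact Or.inr (Or.inl ⟨(d, j), h1, (s, x), h2, Or.inl rfl⟩)
    | @qh s x j h =>
      obtain ⟨d, h1, h2⟩ := h
      exact Or.inr (Or.inl ⟨(d, j), h1, (s, x), h2, Or.inr rfl⟩)
    | @bc x h => exact Or.inr (Or.inr (Or.inl ⟨x, h, Or.inl rfl⟩))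
    | @ca x h => exact Or.inr (Or.inr (Or.inl ⟨x, h, Or.inr (Or.inl rfl)⟩))
    | @ua s x h => exact Or.inr (Or.inr (Or.inl ⟨x, h, Or.inr (Or.inr ⟨s, by cases s <;> simp,
        Or.inl rfl⟩)⟩))
    | @bv s x h => exact Or.inr (Or.inr (Or.inl ⟨x, h, Or.inr (Or.inr ⟨s, by cases s <;> simp,
        Or.inr rfl⟩)⟩))
    | @uv s x i h h' =>
      exact Or.inr (Or.inr (Or.inr (Or.inl ⟨x, h, i, h', s, by cases s <;> simp, Or.inl rfl⟩)))
    | @uq s x i h h' =>
      exact Or.inr (Or.inr (Or.inr (Or.inl ⟨x, h, i, h', s, by cases s <;> simp,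
        Or.inr (Or.inl rfl)⟩)))
    | @qv s x i h h' =>
      exact Or.inr (Or.inr (Or.inr (Or.inl ⟨x, h, i, h', s, by cases s <;> simp,
        Or.inr (Or.inr rfl)⟩)))
    | @uw s x i h h' =>
      exact Or.inr (Or.inr (Or.inr (Or.inr ⟨x, h, i, by omega, s, by cases s <;> simp, rfl⟩)))

/-! ### Transfer -/

theorem zip_rotate_map {α β : Type} (f : α → β) (l : List α) :
    (l.map f).zip ((l.map f).rotate 1) = (l.zip (l.rotate 1)).map (Prod.map f f) := by
  rw [← List.map_rotate, List.zip_map]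

theorem hasFactor_iff {α : Type} {f : α → ℕ} (hf : Function.Injective f) {V : α → Prop}
    {R : α → α → Prop} (hRV : ∀ p q, R p q → V p ∧ V q) {I : Inst}
    (hV : ∀ z, z ∈ I.1 ↔ ∃ p, V p ∧ z = f p)
    (hA : ∀ z, z ∈ I.2 ↔ ∃ p q, R p q ∧ z = (f p, f q)) :
    HasFactor I ↔ HasF V R := by
  have hR : ∀ p q, (f p, f q) ∈ I.2 ↔ R p q := by
    intro p q
    rw [hA]
    constructor
    · rintro ⟨p', q', h, h'⟩
      simp only [Prod.mk.injEq] at h'
      rw [hf h'.1, hf h'.2]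
      exact h
    · intro h
      exact ⟨p, q, h, rfl⟩
  constructor
  · rintro ⟨F, c, ⟨h1, h2, h3⟩, h4, h5, h6⟩
    have hc : ∃ c' : List α, c'.map f = c := by
      have : c ∈ Set.range (List.map f) := by
        rw [Set.range_list_map]
        intro x hx
        obtain ⟨w, _, h⟩ := exists_succ hx
        obtain ⟨p, q, _, h7⟩ := (hA _).1 (h6 _ h).1
        simp only [Prod.mk.injEq] at h7
        exact ⟨p, h7.1.symm⟩
      exact this
    obtain ⟨c', rfl⟩ := hc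
    have hFi : ∀ p z, F (f p) z → ∃ q, z = f q := by
      intro p z h
      rcases h2 _ _ h with h | h
      · obtain ⟨p', q', _, h7⟩ := (hA _).1 h
        simp only [Prod.mk.injEq] at h7
        exact ⟨q', h7.2⟩
      · obtain ⟨p', q', _, h7⟩ := (hA _).1 h
        simp only [Prod.mk.injEq] at h7
        exact ⟨p', h7.1⟩
    refine ⟨fun p q => F (f p) (f q), c', ⟨fun p q h => h1 _ _ h, ?_, ?_⟩, h4.of_map _,
      by simpa using h5, ?_⟩
    · intro p q h
      rcases h2 _ _ h with h | h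
      · exact Or.inl ((hR _ _).1 h)
      · exact Or.inr ((hR _ _).1 h)
    · intro p hp
      obtain ⟨q, r, hqr, h⟩ := h3 (f p) ((hV _).2 ⟨p, hp, rfl⟩)
      obtain ⟨q', rfl⟩ := hFi p q ((h q).2 (Or.inl rfl))
      obtain ⟨r', rfl⟩ := hFi p r ((h r).2 (Or.inr rfl))
      refine ⟨q', r', fun h' => hqr (by rw [h']), fun w => ?_⟩
      change F (f p) (f w) ↔ _
      rw [h (f w), hf.eq_iff, hf.eq_iff]
    · intro e he
      have h7 : Prod.map f f e ∈ (c'.map f).zip ((c'.map f).rotate 1) := by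
        rw [zip_rotate_map]
        exact List.mem_map_of_mem he
      have h8 := h6 _ h7
      exact ⟨(hR _ _).1 h8.1, h8.2⟩
  · rintro ⟨F, c, ⟨h1, h2, h3⟩, h4, h5, h6⟩
    refine ⟨fun y z => ∃ p q, F p q ∧ y = f p ∧ z = f q, c.map f, ⟨?_, ?_, ?_⟩, h4.map hf,
      by simpa using h5, ?_⟩
    · rintro y z ⟨p, q, h, rfl, rfl⟩
      exact ⟨q, p, h1 _ _ h, rfl, rfl⟩
    · rintro y z ⟨p, q, h, rfl, rfl⟩
      rcases h2 _ _ h with h | h
      · exact Or.inl ((hR _ _).2 h)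
      · exact Or.inr ((hR _ _).2 h)
    · intro y hy
      obtain ⟨p, hp, rfl⟩ := (hV _).1 hy
      obtain ⟨q, r, hqr, h⟩ := h3 p hp
      refine ⟨f q, f r, fun h => hqr (hf h), fun w => ?_⟩
      constructor
      · rintro ⟨p', w', h7, h8, rfl⟩
        have := hf h8
        subst this
        rw [h] at h7
        rcases h7 with rfl | rfl
        · exact Or.inl rfl
        · exact Or.inr rfl
      · rintro (rfl | rfl)
        · exact ⟨p, q, (h q).2 (Or.inl rfl), rfl, rfl⟩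
        · exact ⟨p, r, (h r).2 (Or.inr rfl), rfl, rfl⟩
    · intro e he
      rw [zip_rotate_map] at he
      obtain ⟨e', he', rfl⟩ := List.mem_map.1 he
      have h8 := h6 _ he'
      exact ⟨(hR _ _).2 h8.1, _, _, h8.2, rfl, rfl⟩

theorem arc_vd {m n : ℕ} {T : Bool → ℕ → ℕ → Prop} (hm : 0 < m)
    (hT : ∀ s x j, T s x j → x < n ∧ j < m) (p w : Nd) (h : Arc m n T p w) :
    Vd m n p ∧ Vd m n w := by
  cases h with
  | hh => exact ⟨.h le_rfl, .h (by omega)⟩
  | hq h => exact ⟨.h (hT _ _ _ h).2.le, .q (hT _ _ _ h).1 (hT _ _ _ h).2⟩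
  | qh h => exact ⟨.q (hT _ _ _ h).1 (hT _ _ _ h).2, .h (hT _ _ _ h).2⟩
  | bc h => exact ⟨.b h, .c h⟩
  | ca h => exact ⟨.c h, .a h⟩
  | ua h => exact ⟨.u h hm, .a h⟩
  | bv h => exact ⟨.b h, .v h (by omega)⟩
  | uv h h' => exact ⟨.u h h', .v h h'⟩
  | uq h h' => exact ⟨.u h h', .q h h'⟩
  | qv h h' => exact ⟨.q h h', .v h h'⟩
  | uw h h' => exact ⟨.u h h', .v h (by omega)⟩

/-- the reduction -/
def red (φ : List Cl) : Inst := (ddup (vs φ), ddup (es φ))

variable {φ : List Cl}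

theorem isInst_red (hb : Bounded3 φ) (hφ : φ ≠ []) : IsInst (red φ) := by
  have hm := List.length_pos_iff.2 hφ
  refine ⟨ddup_nodup _, ddup_nodup _, ?_⟩
  intro e he
  rw [red, mem_ddup, mem_es] at he
  obtain ⟨p, q, h, rfl⟩ := he
  have h1 := arc_vd hm (lt_bound hb) p q h
  rw [red, mem_ddup, mem_ddup, mem_vs, mem_vs]
  refine ⟨⟨p, h1.1, rfl⟩, ⟨q, h1.2, rfl⟩, ?_⟩
  intro h2
  exact arc_ne hm h (cod_inj h2)

theorem red_correct (hb : Bounded3 φ) (hφ : φ ≠ []) : SAT3 φ ↔ HasFactor (red φ) := by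
  have hm := List.length_pos_iff.2 hφ
  rw [hasFactor_iff (V := Vd φ.length (3 * φ.length))
    (R := Arc φ.length (3 * φ.length) (Lt φ)) cod_inj (arc_vd hm (lt_bound hb))
    (fun z => by rw [red, mem_ddup, mem_vs]) (fun z => by rw [red, mem_ddup, mem_es])]
  unfold SAT3 Sat3V
  simp only [sat_iff']
  constructor
  · rintro ⟨τ, hτ⟩
    refine hasF_of_sat hm (lt_bound hb) (τ := τ) ?_
    intro j hj
    have hd : φ[j]? = some φ[j] := List.getElem?_eq_getElem hj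
    obtain ⟨x, s, h1, h2⟩ := hτ j _ hd
    exact ⟨x, s, ⟨_, hd, h1⟩, h2⟩
  · intro h
    obtain ⟨τ, hτ⟩ := sat_of_hasF hm (lt_bound hb) h
    refine ⟨τ, ?_⟩
    intro j d hd
    obtain ⟨x, s, ⟨d', h1, h2⟩, h3⟩ := hτ j (List.getElem?_eq_some_iff.1 hd).1
    rw [hd] at h1
    have h4 : d = d' := by simpa using h1
    rw [← h4] at h2
    exact ⟨x, s, h2, h3⟩

end Pool.Agent.NPC.U19.FC
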